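import Pool.Agent.Run7.h820.SR.StmJ

/-!
# Project JR (helper820), piece ETA: the fixed point `η`
-/

set_option autoImplicit false
open Complex Filter Topology Set Metric MeasureTheory

namespace Run7.h617.SR

open Run7.h820.SR

lemma exp_eighth : Real.exp (1 / 8) ≤ 3 / 2 := by
  have h := Real.add_one_le_exp (-(1 / 8 : ℝ))
  have h2 : Real.exp (1 / 8) * Real.exp (-(1 / 8)) = 1 := by
    rw [← Real.exp_add]
    norm_num
  nlinarith [Real.exp_pos (1 / 8 : ℝ)]

lemma exp_five_fourth : Real.exp (5 / 4) ≤ 4 := by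
  have h := Real.add_one_le_exp (-(1 / 4 : ℝ))
  have h2 : Real.exp (1 / 4) * Real.exp (-(1 / 4)) = 1 := by
    rw [← Real.exp_add]
    norm_num
  have h3 : Real.exp (1 / 4) ≤ 4 / 3 := by
    nlinarith [Real.exp_pos (1 / 4 : ℝ)]
  have h4 : Real.exp (5 / 4) = Real.exp 1 * Real.exp (1 / 4) := by
    rw [← Real.exp_add]
    norm_num
  have h5 := Real.exp_one_lt_d9
  rw [h4]
  have h6 : Real.exp 1 ≤ 3 := by linarith
  calc Real.exp 1 * Real.exp (1 / 4) ≤ 3 * (4 / 3) :=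
        mul_le_mul h6 h3 (Real.exp_pos _).le (by norm_num)
    _ = 4 := by norm_num

lemma exp_lip (x y : ℂ) (hx : ‖x‖ ≤ 1 / 8) (hy : ‖y‖ ≤ 1 / 8) :
    ‖Complex.exp x - Complex.exp y‖ ≤ 3 * ‖x - y‖ := by
  have h1 : Complex.exp x - Complex.exp y = Complex.exp y * (Complex.exp (x - y) - 1) := by
    rw [mul_sub, ← Complex.exp_add, mul_one]
    congr 2
    ring
  have h2 : ‖x - y‖ ≤ 1 := by
    calc ‖x - y‖ ≤ ‖x‖ + ‖y‖ := norm_sub_le _ _
      _ ≤ 1 := by linarith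
  rw [h1, norm_mul]
  have h3 : ‖Complex.exp y‖ ≤ 3 / 2 := by
    rw [Complex.norm_exp]
    refine le_trans (Real.exp_le_exp.mpr ?_) exp_eighth
    exact (Complex.re_le_norm y).trans hy
  have h4 := Complex.norm_exp_sub_one_le h2
  calc ‖Complex.exp y‖ * ‖Complex.exp (x - y) - 1‖ ≤ (3 / 2) * (2 * ‖x - y‖) := by
        gcongr
    _ = 3 * ‖x - y‖ := by ring

/-- the Lipschitz bound of `L` -/
lemma L_lip {κ δ : ℝ} {L : ℂ → ℂ} (hκ : 0 < κ)
    (hd : DifferentiableOn ℂ L (ball 0 (Real.exp (3 / 2 * κ))))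
    (hb : ∀ w ∈ ball (0:ℂ) (Real.exp (3 / 2 * κ)), ‖L w‖ ≤ δ) (w w' : ℂ)
    (hw : ‖w‖ ≤ Real.exp (11 / 8 * κ)) (hw' : ‖w'‖ ≤ Real.exp (11 / 8 * κ)) :
    ‖L w - L w'‖ ≤ 8 * δ / κ * ‖w - w'‖ := by
  have hexp : Real.exp (11 / 8 * κ) + κ / 8 < Real.exp (3 / 2 * κ) := by
    have h1 : Real.exp (3 / 2 * κ) = Real.exp (11 / 8 * κ) * Real.exp (κ / 8) := by
      rw [← Real.exp_add]; congr 1; ring
    have h2 : κ / 8 + 1 < Real.exp (κ / 8) := Real.add_one_lt_exp (by positivity)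
    have h3 : 11 / 8 * κ + 1 ≤ Real.exp (11 / 8 * κ) := Real.add_one_le_exp _
    rw [h1]
    nlinarith
  have hsub : ∀ z : ℂ, ‖z‖ ≤ Real.exp (11 / 8 * κ) → ∀ y ∈ closedBall z (κ / 8),
      y ∈ ball (0:ℂ) (Real.exp (3 / 2 * κ)) := by
    intro z hz y hy
    rw [mem_closedBall, dist_eq_norm] at hy
    have : ‖y‖ ≤ ‖y - z‖ + ‖z‖ := by
      have h := norm_add_le (y - z) z
      rwa [sub_add_cancel] at h
    rw [mem_ball_zero_iff]
    linarith
  have hdiff : ∀ z ∈ ball (0:ℂ) (Real.exp (3 / 2 * κ)), DifferentiableAt ℂ L z := fun z hz =>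
    hd.differentiableAt (isOpen_ball.mem_nhds hz)
  have hself : ∀ z : ℂ, ‖z‖ ≤ Real.exp (11 / 8 * κ) → z ∈ ball (0:ℂ) (Real.exp (3 / 2 * κ)) :=
    fun z hz => hsub z hz z (mem_closedBall_self (by positivity))
  have hder : ∀ z : ℂ, ‖z‖ ≤ Real.exp (11 / 8 * κ) → ‖deriv L z‖ ≤ 8 * δ / κ := by
    intro z hz
    have hdc : DiffContOnCl ℂ L (ball z (κ / 8)) := by
      refine DifferentiableOn.diffContOnCl ?_
      intro y hy
      refine (hdiff y (hsub z hz y ?_)).differentiableWithinAt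
      exact closure_ball_subset_closedBall hy
    have h := Complex.norm_deriv_le_of_forall_mem_sphere_norm_le (c := z) (R := κ / 8) (C := δ)
      (f := L) (by linarith) hdc (fun y hy => hb y (hsub z hz y (sphere_subset_closedBall hy)))
    have h2 : δ / (κ / 8) = 8 * δ / κ := by field_simp
    rwa [h2] at h
  have hfin := Convex.norm_image_sub_le_of_norm_deriv_le (𝕜 := ℂ) (f := L) (C := 8 * δ / κ)
    (s := closedBall (0 : ℂ) (Real.exp (11 / 8 * κ))) (x := w') (y := w)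
    (fun z hz => hdiff z (hself z (by rwa [mem_closedBall, dist_zero_right] at hz)))
    (fun z hz => hder z (by rwa [mem_closedBall, dist_zero_right] at hz))
    (convex_closedBall _ _) (by rwa [mem_closedBall, dist_zero_right])
    (by rwa [mem_closedBall, dist_zero_right])
  exact hfin

/-- the iteration -/
noncomputable def ek (L : ℂ → ℂ) : ℕ → ℂ → ℂ
  | 0 => fun _ => 0
  | k + 1 => fun u => L (u * Complex.exp (ek L k u))

section

variable {κ δ : ℝ} {L : ℂ → ℂ}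

lemma arg_small (hκ : 0 < κ) (hδ : 200 * δ ≤ κ) {x u : ℂ}
    (hu : u ∈ ball (0:ℂ) (Real.exp (5 / 4 * κ))) (hx : ‖x‖ ≤ δ) :
    ‖u * Complex.exp x‖ ≤ Real.exp (11 / 8 * κ) := by
  rw [norm_mul, Complex.norm_exp]
  rw [mem_ball_zero_iff] at hu
  calc ‖u‖ * Real.exp x.re ≤ Real.exp (5 / 4 * κ) * Real.exp (1 / 8 * κ) := by
        refine mul_le_mul hu.le (Real.exp_le_exp.mpr ?_) (Real.exp_pos _).le (Real.exp_pos _).le
        exact (Complex.re_le_norm _).trans (hx.trans (by linarith))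
    _ = Real.exp (11 / 8 * κ) := by
        rw [← Real.exp_add]; congr 1; ring

lemma mem_big (hκ : 0 < κ) {w : ℂ} (hw : ‖w‖ ≤ Real.exp (11 / 8 * κ)) :
    w ∈ ball (0:ℂ) (Real.exp (3 / 2 * κ)) := by
  rw [mem_ball_zero_iff]
  exact lt_of_le_of_lt hw (Real.exp_lt_exp.mpr (by linarith))

lemma ek_prop (hκ : 0 < κ) (hδ0 : 0 ≤ δ) (hδ : 200 * δ ≤ κ)
    (hd : DifferentiableOn ℂ L (ball 0 (Real.exp (3 / 2 * κ)))) (hL0 : L 0 = 0)
    (hb : ∀ w ∈ ball (0:ℂ) (Real.exp (3 / 2 * κ)), ‖L w‖ ≤ δ) (k : ℕ) :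
    DifferentiableOn ℂ (ek L k) (ball 0 (Real.exp (5 / 4 * κ))) ∧ ek L k 0 = 0 ∧
      ∀ u ∈ ball (0:ℂ) (Real.exp (5 / 4 * κ)), ‖ek L k u‖ ≤ δ := by
  induction k with
  | zero =>
    refine ⟨differentiableOn_const _, rfl, fun v _ => ?_⟩
    show ‖(0:ℂ)‖ ≤ δ
    rw [norm_zero]
    exact hδ0
  | succ k ih =>
    obtain ⟨i1, i2, i3⟩ := ih
    refine ⟨?_, ?_, ?_⟩
    · have hg : DifferentiableOn ℂ (fun u : ℂ => u * Complex.exp (ek L k u))
          (ball 0 (Real.exp (5 / 4 * κ))) :=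
        differentiableOn_id.mul i1.cexp
      refine hd.comp hg ?_
      intro u hu
      exact mem_big hκ (arg_small hκ hδ hu (i3 u hu))
    · show L (0 * Complex.exp (ek L k 0)) = 0
      rw [zero_mul, hL0]
    · intro u hu
      exact hb _ (mem_big hκ (arg_small hκ hδ hu (i3 u hu)))

lemma ek_diff (hκ : 0 < κ) (hκ1 : κ ≤ 1) (hδ0 : 0 ≤ δ) (hδ : 200 * δ ≤ κ)
    (hd : DifferentiableOn ℂ L (ball 0 (Real.exp (3 / 2 * κ)))) (hL0 : L 0 = 0)
    (hb : ∀ w ∈ ball (0:ℂ) (Real.exp (3 / 2 * κ)), ‖L w‖ ≤ δ) (k : ℕ) :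
    ∀ u ∈ ball (0:ℂ) (Real.exp (5 / 4 * κ)), ‖ek L (k + 1) u - ek L k u‖ ≤ δ * (1 / 2) ^ k := by
  induction k with
  | zero =>
    intro u hu
    have := (ek_prop hκ hδ0 hδ hd hL0 hb 1).2.2 u hu
    rw [pow_zero, mul_one]
    have h0 : ek L 0 u = 0 := rfl
    rw [h0, sub_zero]
    exact this
  | succ k ih =>
    intro u hu
    have a1 := (ek_prop hκ hδ0 hδ hd hL0 hb k).2.2 u hu
    have b1 := (ek_prop hκ hδ0 hδ hd hL0 hb (k + 1)).2.2 u hu
    have hdd := ih u hu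
    set x := ek L k u with hx
    set y := ek L (k + 1) u with hy
    have e1 : ek L (k + 1 + 1) u - y = L (u * Complex.exp y) - L (u * Complex.exp x) := rfl
    have e2 := L_lip hκ hd hb (u * Complex.exp y) (u * Complex.exp x)
      (arg_small hκ hδ hu b1) (arg_small hκ hδ hu a1)
    have hu4 : ‖u‖ ≤ 4 := by
      rw [mem_ball_zero_iff] at hu
      refine hu.le.trans (le_trans (Real.exp_le_exp.mpr ?_) exp_five_fourth)
      linarith
    have e3 : ‖u * Complex.exp y - u * Complex.exp x‖ ≤ 12 * ‖y - x‖ := by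
      rw [← mul_sub, norm_mul]
      calc ‖u‖ * ‖Complex.exp y - Complex.exp x‖ ≤ 4 * (3 * ‖y - x‖) := by
            refine mul_le_mul hu4 (exp_lip y x (b1.trans (by linarith)) (a1.trans (by linarith)))
              (norm_nonneg _) (by norm_num)
        _ = 12 * ‖y - x‖ := by ring
    rw [e1]
    have hc0 : 0 ≤ 8 * δ / κ := by positivity
    have hc : 8 * δ / κ * 12 ≤ 1 / 2 := by
      rw [div_mul_eq_mul_div, div_le_iff₀ hκ]
      linarith
    calc ‖L (u * Complex.exp y) - L (u * Complex.exp x)‖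
        ≤ 8 * δ / κ * ‖u * Complex.exp y - u * Complex.exp x‖ := e2
      _ ≤ 8 * δ / κ * (12 * ‖y - x‖) := mul_le_mul_of_nonneg_left e3 hc0
      _ = (8 * δ / κ * 12) * ‖y - x‖ := by ring
      _ ≤ (1 / 2) * (δ * (1 / 2) ^ k) :=
          mul_le_mul hc hdd (norm_nonneg _) (by norm_num)
      _ = δ * (1 / 2) ^ (k + 1) := by
          rw [pow_succ]
          ring

end

theorem t_ETA : S_ETA := by
  intro κ δ L hκ hκ1 hδ0 hδ hd hL0 hb
  have hprop := ek_prop hκ hδ0 hδ hd hL0 hb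
  -- pointwise limits
  have hdist : ∀ v ∈ ball (0:ℂ) (Real.exp (5 / 4 * κ)), ∀ k : ℕ,
      dist (ek L k v) (ek L (k + 1) v) ≤ δ * (1 / 2) ^ k := by
    intro v hv k
    rw [dist_comm, dist_eq_norm]
    exact ek_diff hκ hκ1 hδ0 hδ hd hL0 hb k v hv
  have hlim : ∀ v ∈ ball (0:ℂ) (Real.exp (5 / 4 * κ)),
      ∃ a : ℂ, Tendsto (fun k => ek L k v) atTop (𝓝 a) := by
    intro v hv
    exact cauchySeq_tendsto_of_complete
      (cauchySeq_of_le_geometric (1 / 2) δ (by norm_num) (hdist v hv))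
  classical
  let A : ℂ → ℂ := fun v => if hv : v ∈ ball (0:ℂ) (Real.exp (5 / 4 * κ)) then
    (hlim v hv).choose else 0
  have hA : ∀ v ∈ ball (0:ℂ) (Real.exp (5 / 4 * κ)), Tendsto (fun k => ek L k v) atTop (𝓝 (A v)) := by
    intro v hv
    have : A v = (hlim v hv).choose := dif_pos hv
    rw [this]
    exact (hlim v hv).choose_spec
  have hunif : TendstoUniformlyOn (fun k => ek L k) A atTop (ball 0 (Real.exp (5 / 4 * κ))) := by
    rw [Metric.tendstoUniformlyOn_iff]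
    intro ε hε
    have hz : Tendsto (fun k : ℕ => δ * (1 / 2 : ℝ) ^ k / (1 - 1 / 2)) atTop (𝓝 0) := by
      have := (tendsto_pow_atTop_nhds_zero_of_lt_one (r := (1 / 2 : ℝ)) (by norm_num)
        (by norm_num)).const_mul δ
      have := this.div_const (1 - 1 / 2)
      simpa using this
    filter_upwards [hz.eventually_lt_const hε] with k hk v hv
    rw [dist_comm]
    exact lt_of_le_of_lt
      (dist_le_of_le_geometric_of_tendsto (1 / 2) δ (by norm_num) (hdist v hv) (hA v hv) k) hk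
  have hdiff : DifferentiableOn ℂ A (ball 0 (Real.exp (5 / 4 * κ))) := by
    refine hunif.tendstoLocallyUniformlyOn.differentiableOn (Eventually.of_forall (fun k => ?_))
      isOpen_ball
    exact (hprop k).1
  have hbd : ∀ v ∈ ball (0:ℂ) (Real.exp (5 / 4 * κ)), ‖A v‖ ≤ δ := by
    intro v hv
    exact le_of_tendsto (hA v hv).norm (Eventually.of_forall (fun k => (hprop k).2.2 v hv))
  refine ⟨A, hdiff, ?_, hbd, ?_⟩
  · have h0 : (0:ℂ) ∈ ball (0:ℂ) (Real.exp (5 / 4 * κ)) := mem_ball_self (Real.exp_pos _)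
    refine tendsto_nhds_unique (hA 0 h0) ?_
    have : (fun k => ek L k 0) = fun _ => (0:ℂ) := by
      funext k
      exact (hprop k).2.1
    rw [this]
    exact tendsto_const_nhds
  · intro v hv
    have l1 : Tendsto (fun k => ek L (k + 1) v) atTop (𝓝 (A v)) :=
      (hA v hv).comp (tendsto_add_atTop_nat 1)
    have l3 : Tendsto (fun k => v * Complex.exp (ek L k v)) atTop
        (𝓝 (v * Complex.exp (A v))) :=
      ((Complex.continuous_exp.tendsto _).comp (hA v hv)).const_mul v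
    have hin : v * Complex.exp (A v) ∈ ball (0:ℂ) (Real.exp (3 / 2 * κ)) :=
      mem_big hκ (arg_small hκ hδ hv (hbd v hv))
    have hγc : ContinuousAt L (v * Complex.exp (A v)) :=
      (hd.differentiableAt (isOpen_ball.mem_nhds hin)).continuousAt
    have l4 : Tendsto (fun k => L (v * Complex.exp (ek L k v))) atTop
        (𝓝 (L (v * Complex.exp (A v)))) := hγc.tendsto.comp l3
    exact tendsto_nhds_unique l1 l4

end Run7.h617.SR
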