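import Pool.Agent.Run7.h820.SR.StmJ

/-! Project JR (helper820), piece SIGP: the exterior map from the disc coordinate, with a
polynomial functional equation (adapted from Pool.Agent.Run7.h705.SR.SIG). -/

set_option autoImplicit false
open Complex Filter Topology Set Metric MeasureTheory

namespace Run7.h617.SR

open Run7.h820.SR
open Q90.SM (IsSig marshall pmean circ FF)

lemma inv_mem {z : ℂ} (hz : 1 < ‖z‖) : z⁻¹ ∈ ball (0:ℂ) 1 := by
  rw [mem_ball_zero_iff, norm_inv]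
  exact inv_lt_one_of_one_lt₀ hz

lemma ne0 {z : ℂ} (hz : 1 < ‖z‖) : z ≠ 0 := by
  rintro rfl
  simp at hz
  linarith

lemma N_big {κ B : ℝ} {γ ℓ : ℂ → ℂ} {N : ℕ} {A : ℂ → ℂ} (hF : Fx κ B γ ℓ N A) :
    (16:ℝ) ≤ N ∧ 16 * B / κ ≤ N := by
  have h0 := hF.blk.κ0
  have h1 := hF.blk.κ1
  have hB := hF.blk.B1
  have hN := hF.hN
  have e1 : 16 * B / κ ≤ N := by
    refine le_trans ?_ hN
    apply div_le_div_of_nonneg_right _ h0.le
    nlinarith
  refine ⟨?_, e1⟩
  refine le_trans ?_ e1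
  rw [le_div_iff₀ h0]
  nlinarith

theorem t_SIGP : S_SIGP := by
  intro κ B γ ℓ N A E P hF hinj hE hE0 hexp hP hPN hPe
  have h0 := hF.blk.κ0
  have hB := hF.blk.B1
  obtain ⟨hN16, hNB⟩ := N_big hF
  have hNpos : (0:ℝ) < N := by linarith
  have hNC : (N:ℂ) ≠ 0 := by
    have : (N:ℝ) ≠ 0 := hNpos.ne'
    exact_mod_cast this
  have hN2 : 2 ≤ N := by
    have : (2:ℝ) ≤ N := by linarith
    exact_mod_cast this
  have hopen : IsOpen {z : ℂ | 1 < ‖z‖} := isOpen_lt continuous_const continuous_norm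
  have hAat : ∀ v ∈ ball (0:ℂ) 1, DifferentiableAt ℂ A v := fun v hv =>
    (hF.dA v hv).differentiableAt (isOpen_ball.mem_nhds hv)
  have hEat : ∀ v ∈ ball (0:ℂ) 1, DifferentiableAt ℂ E v := fun v hv =>
    (hE v hv).differentiableAt (isOpen_ball.mem_nhds hv)
  -- derivative of z ↦ A z⁻¹
  have hAinv : ∀ z : ℂ, 1 < ‖z‖ → HasDerivAt (fun z => A z⁻¹) (deriv A z⁻¹ * (-(z ^ 2)⁻¹)) z := by
    intro z hz
    have h1 := (hAat z⁻¹ (inv_mem hz)).hasDerivAt
    have h2 := hasDerivAt_inv (ne0 hz)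
    exact h1.comp z h2
  have hψ : ∀ z : ℂ, 1 < ‖z‖ → HasDerivAt (fun z => z * Complex.exp (-A z⁻¹))
      (Complex.exp (E z⁻¹ - A z⁻¹)) z := by
    intro z hz
    have h1 := (hasDerivAt_id z).mul ((hAinv z hz).neg.cexp)
    refine h1.congr_deriv ?_
    have hz0 := ne0 hz
    simp only [id, Pi.neg_apply]
    rw [Complex.exp_sub, hexp _ (inv_mem hz), Complex.exp_neg]
    field_simp
  refine ⟨fun z => z * Complex.exp (-A z⁻¹), fun z => E z⁻¹ - A z⁻¹, ⟨?_, ?_, ?_, ?_, ?_, ?_⟩, ?_, ?_⟩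
  · intro z hz
    exact (hψ z hz).differentiableAt.differentiableWithinAt
  · intro z hz z' hz' h
    have hz0 := ne0 hz
    have hz0' := ne0 hz'
    have h1 : z⁻¹ * Complex.exp (A z⁻¹) = z'⁻¹ * Complex.exp (A z'⁻¹) := by
      have h2 : (z * Complex.exp (-A z⁻¹))⁻¹ = (z' * Complex.exp (-A z'⁻¹))⁻¹ := by
        rw [show z * Complex.exp (-A z⁻¹) = z' * Complex.exp (-A z'⁻¹) from h]
      rw [mul_inv, mul_inv, ← Complex.exp_neg, ← Complex.exp_neg, neg_neg, neg_neg] at h2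
      exact h2
    have h3 := hinj (inv_mem hz) (inv_mem hz') h1
    exact inv_injective h3
  · refine ⟨-deriv A 0, ?_⟩
    have h1 : HasDerivAt (fun v => Complex.exp (-A v)) (-deriv A 0) 0 := by
      have h2 := ((hAat 0 (by simp)).hasDerivAt.neg).cexp
      simpa [hF.A0] using h2
    have h2 : Tendsto (fun z : ℂ => z⁻¹) (Bornology.cobounded ℂ) (𝓝[≠] 0) :=
      tendsto_inv₀_cobounded'
    have h3 := (hasDerivAt_iff_tendsto_slope.1 h1).comp h2
    refine h3.congr' ?_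
    have hne : ∀ᶠ z : ℂ in Bornology.cobounded ℂ, z ≠ 0 := Bornology.eventually_ne_cobounded 0
    filter_upwards [hne] with z hz
    simp only [Function.comp, slope_def_field, hF.A0, neg_zero, Complex.exp_zero, sub_zero]
    field_simp
  · intro z hz
    have h1 : DifferentiableAt ℂ (fun z => E z⁻¹) z :=
      (hEat z⁻¹ (inv_mem hz)).comp z (hasDerivAt_inv (ne0 hz)).differentiableAt
    exact (h1.sub (hAinv z hz).differentiableAt).differentiableWithinAt
  · intro z hz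
    exact (hψ z hz).deriv.symm
  · have h2 : Tendsto (fun z : ℂ => z⁻¹) (Bornology.cobounded ℂ) (𝓝 0) :=
      tendsto_inv₀_cobounded
    have h3 : Tendsto (fun v => E v - A v) (𝓝 0) (𝓝 (E 0 - A 0)) :=
      ((hEat 0 (by simp)).continuousAt.sub (hAat 0 (by simp)).continuousAt)
    have h4 := h3.comp h2
    simpa [hE0, hF.A0, Function.comp_def] using h4
  · refine ⟨P, by rw [hPN]; exact hN2, hP, ?_⟩
    intro z hz
    rw [hPN]
    have hz0 := ne0 hz
    have hv := inv_mem hz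
    have hv1 : ‖z⁻¹‖ < 1 := by rwa [mem_ball_zero_iff] at hv
    have hvN : z⁻¹ ^ N ∈ ball (0:ℂ) 1 := by
      rw [mem_ball_zero_iff, norm_pow]
      exact pow_lt_one₀ (norm_nonneg _) hv1 (by omega)
    have hbA := hF.bA _ hvN
    have hsmall : ‖A (z⁻¹ ^ N) / N‖ ≤ κ := by
      rw [norm_div, Complex.norm_natCast, div_le_iff₀ hNpos]
      have e5 : 16 * B ≤ N * κ := by
        rw [div_le_iff₀ h0] at hNB; exact hNB
      nlinarith
    have hτ : z⁻¹ * Complex.exp (A (z⁻¹ ^ N) / N) ∈ ball (0:ℂ) (Real.exp (2 * κ)) := by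
      rw [mem_ball_zero_iff, norm_mul, Complex.norm_exp]
      have e1 : Real.exp (A (z⁻¹ ^ N) / N).re ≤ Real.exp κ :=
        Real.exp_le_exp.2 ((Complex.re_le_norm _).trans hsmall)
      have e2 : Real.exp κ < Real.exp (2 * κ) := Real.exp_lt_exp.2 (by linarith)
      have e3 := Real.exp_pos κ
      have e4 := Real.exp_pos (A (z⁻¹ ^ N) / N).re
      calc ‖z⁻¹‖ * Real.exp (A (z⁻¹ ^ N) / N).re ≤ 1 * Real.exp κ :=
            mul_le_mul hv1.le e1 e4.le zero_le_one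
        _ < Real.exp (2 * κ) := by rw [one_mul]; exact e2
    have hτ0 : z⁻¹ * Complex.exp (A (z⁻¹ ^ N) / N) ≠ 0 :=
      mul_ne_zero (inv_ne_zero hz0) (Complex.exp_ne_zero _)
    have h1 := hPe _ hτ hτ0
    have hfe := hF.fe _ hv
    have e1 : (z⁻¹ * Complex.exp (A (z⁻¹ ^ N) / N))⁻¹ = z * Complex.exp (-(A (z⁻¹ ^ N) / N)) := by
      rw [mul_inv, ← Complex.exp_neg, inv_inv]
    have e2 : z * Complex.exp (-A z⁻¹) =
        Complex.exp (γ (z⁻¹ * Complex.exp (A (z⁻¹ ^ N) / N))) /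
          (z⁻¹ * Complex.exp (A (z⁻¹ ^ N) / N)) := by
      rw [div_eq_mul_inv, e1, mul_comm (Complex.exp _) (z * _), mul_assoc, ← Complex.exp_add]
      congr 2
      rw [hfe]; ring
    show P.eval (z * Complex.exp (-A z⁻¹)) = z ^ N * Complex.exp (-A (z ^ N)⁻¹)
    rw [e2, h1, e1, mul_pow, ← Complex.exp_nat_mul, inv_pow]
    congr 2
    field_simp
  · intro z hz
    rfl

end Run7.h617.SR
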